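import Pool.Agent.Lib_MP_f59448_lc.Cantor

/-!
# Programs for computable functions and for finite tables
-/

namespace UnifRep

theorem exists_code_of_partrec {f : ℕ →. ℕ} (hf : Nat.Partrec f) :
    ∃ c : Code, ∀ (x : ℕ → ℕ) (n : ℕ), eval x c n = f n := by
  induction hf with
  | zero => exact ⟨Code.zero, fun x n => rfl⟩
  | succ => exact ⟨Code.succ, fun x n => rfl⟩
  | left => exact ⟨Code.left, fun x n => rfl⟩
  | right => exact ⟨Code.right, fun x n => rfl⟩
  | pair hf hg ihf ihg =>
    obtain ⟨a, ha⟩ := ihf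
    obtain ⟨b, hb⟩ := ihg
    exact ⟨Code.pair a b, fun x n => by simp only [eval, ha, hb]⟩
  | comp hf hg ihf ihg =>
    obtain ⟨a, ha⟩ := ihf
    obtain ⟨b, hb⟩ := ihg
    refine ⟨Code.comp a b, fun x n => ?_⟩
    have : eval x a = _ := funext (ha x)
    simp only [eval, hb, this]
  | prec hf hg ihf ihg =>
    obtain ⟨a, ha⟩ := ihf
    obtain ⟨b, hb⟩ := ihg
    refine ⟨Code.prec a b, fun x n => ?_⟩
    simp only [eval, ha, hb, Nat.unpaired]
  | rfind hf ihf =>
    obtain ⟨a, ha⟩ := ihf
    refine ⟨Code.rfind a, fun x n => ?_⟩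
    simp only [eval, ha]

theorem exists_code_of_computable {f : ℕ → ℕ} (hf : Computable f) :
    ∃ c : Code, ∀ (x : ℕ → ℕ) (n : ℕ), f n ∈ eval x c n := by
  obtain ⟨c, hc⟩ := exists_code_of_partrec (Partrec.nat_iff.1 hf)
  refine ⟨c, fun x n => ?_⟩
  rw [hc]
  exact Part.mem_some _

/-- overwrite a finite part of the oracle according to one of two tables; which one is decided by
the value of the oracle at `k0` -/
theorem exists_code_table (l1 l0 : List (Option ℕ)) (k0 c1 : ℕ) :
    ∃ c : Code, ∀ (x : ℕ → ℕ) (n : ℕ),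
      (((if x k0 = c1 then l1 else l0).getD n none).getD (x n)) ∈ eval x c n := by
  have hg : Primrec fun m : ℕ =>
      (((if m.unpair.2.unpair.2 = c1 then l1 else l0).getD m.unpair.1 none).getD
        m.unpair.2.unpair.1) := by
    have h1 : Primrec fun m : ℕ => m.unpair.1 := Primrec.fst.comp Primrec.unpair
    have h2 : Primrec fun m : ℕ => m.unpair.2 := Primrec.snd.comp Primrec.unpair
    have h3 : Primrec fun m : ℕ => m.unpair.2.unpair.1 := h1.comp h2
    have h4 : Primrec fun m : ℕ => m.unpair.2.unpair.2 := h2.comp h2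
    have h5 : Primrec fun m : ℕ => (if m.unpair.2.unpair.2 = c1 then l1 else l0) :=
      Primrec.ite (Primrec.eq.comp h4 (Primrec.const c1)) (Primrec.const l1) (Primrec.const l0)
    exact Primrec.option_getD.comp ((Primrec.list_getD none).comp h5 h1) h3
  obtain ⟨cg, hcg⟩ := exists_code_of_computable hg.to_comp
  obtain ⟨cid, hcid⟩ := exists_code_of_computable (f := fun n => n) Computable.id
  obtain ⟨ck, hck⟩ := exists_code_of_computable (f := fun _ => k0) (Computable.const k0)
  refine ⟨Code.comp cg (Code.pair cid (Code.pair Code.oracle (Code.comp Code.oracle ck))),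
    fun x n => ?_⟩
  have e1 : eval x cid n = Part.some n := Part.eq_some_iff.2 (hcid x n)
  have e2 : eval x ck n = Part.some k0 := Part.eq_some_iff.2 (hck x n)
  have e3 := hcg x (Nat.pair n (Nat.pair (x n) (x k0)))
  simp only [Nat.unpair_pair] at e3
  simp only [eval, e1, e2, Part.bind_eq_bind, Part.bind_some, Seq.seq, Part.map_eq_map,
    Part.map_some]
  exact e3

theorem computes_of_finite_diff (x y : ℕ → ℕ) (N : ℕ) (h : ∀ n, N ≤ n → x n = y n) :
    ∃ c, Computes c y x := by
  obtain ⟨c, hc⟩ := exists_code_table ((List.range N).map fun i => some (x i))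
    ((List.range N).map fun i => some (x i)) 0 0
  refine ⟨c, fun n => ?_⟩
  have := hc y n
  rw [ite_self] at this
  by_cases hn : n < N
  · simpa [List.getD, hn] using this
  · have hn' := not_lt.1 hn
    rw [h n hn']
    simpa [List.getD, hn] using this

theorem turingEq_of_finite_diff (x y : ℕ → ℕ) (N : ℕ) (h : ∀ n, N ≤ n → x n = y n) :
    TuringEq x y :=
  ⟨computes_of_finite_diff y x N fun n hn => (h n hn).symm, computes_of_finite_diff x y N h⟩

/-- `z ≤_T z ⊕ x` -/
theorem emb_computes (z : ℕ → ℕ) (x : ℕ → Bool) : ∃ c, Computes c (emb z x) z := by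
  obtain ⟨ck, hck⟩ := exists_code_of_computable (f := fun n => 2 * n)
    (Primrec.nat_mul.comp (Primrec.const 2) Primrec.id).to_comp
  refine ⟨Code.comp Code.oracle ck, fun n => ?_⟩
  have e1 : eval (emb z x) ck n = Part.some (2 * n) := Part.eq_some_iff.2 (hck _ n)
  simp only [eval, e1, Part.bind_eq_bind, Part.bind_some, emb]
  have h1 : 2 * n % 2 = 0 := by omega
  have h2 : 2 * n / 2 = n := by omega
  rw [if_pos h1, h2]
  exact Part.mem_some _

end UnifRep
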