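import Pool.Agent.Lib_MP_f59448_lc.Defs

/-!
# The use principle

A computation with oracle `x` that halts with value `v` inspects only finitely many values of `x`;
in topological terms, `{x | v ∈ eval x c n}` is open.
-/

open Topology

namespace UnifRep

theorem isOpen_exists_mem_and {α : Type*} (f g : (ℕ → ℕ) → Part ℕ) (p : ℕ → ℕ → Prop)
    (hf : ∀ v, IsOpen {x | v ∈ f x}) (hg : ∀ v, IsOpen {x | v ∈ g x}) (_ : α) :
    IsOpen {x | ∃ a b, a ∈ f x ∧ b ∈ g x ∧ p a b} := by
  have : {x | ∃ a b, a ∈ f x ∧ b ∈ g x ∧ p a b} =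
      ⋃ a, ⋃ b, ({x | a ∈ f x} ∩ {x | b ∈ g x}) ∩ {_x | p a b} := by
    ext x
    simp only [Set.mem_ofPred_eq, Set.mem_iUnion, Set.mem_inter_iff]
    constructor
    · rintro ⟨a, b, h1, h2, h3⟩
      exact ⟨a, b, ⟨h1, h2⟩, h3⟩
    · rintro ⟨a, b, ⟨h1, h2⟩, h3⟩
      exact ⟨a, b, h1, h2, h3⟩
  rw [this]
  exact isOpen_iUnion fun a => isOpen_iUnion fun b => ((hf a).inter (hg b)).inter isOpen_const

/-- use principle -/
theorem isOpen_eval (c : Code) (n v : ℕ) : IsOpen {x : ℕ → ℕ | v ∈ eval x c n} := by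
  induction c generalizing n v with
  | zero => simp only [eval, Part.mem_some_iff]; exact isOpen_const
  | succ => simp only [eval, Part.mem_some_iff]; exact isOpen_const
  | left => simp only [eval, Part.mem_some_iff]; exact isOpen_const
  | right => simp only [eval, Part.mem_some_iff]; exact isOpen_const
  | oracle =>
    simp only [eval, Part.mem_some_iff]
    have : {x : ℕ → ℕ | v = x n} = (fun x : ℕ → ℕ => x n) ⁻¹' {v} := by
      ext x
      simp [eq_comm]
    rw [this]
    exact (isOpen_discrete {v}).preimage (continuous_apply n)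
  | pair a b iha ihb =>
    have : {x : ℕ → ℕ | v ∈ eval x (Code.pair a b) n} =
        {x | ∃ s t, s ∈ eval x a n ∧ t ∈ eval x b n ∧ Nat.pair s t = v} := by
      ext x
      simp only [eval, Set.mem_ofPred_eq, Seq.seq, Functor.map, Part.mem_bind_iff, Part.mem_map_iff]
      constructor
      · rintro ⟨g, ⟨s, hs, rfl⟩, t, ht, rfl⟩
        exact ⟨s, t, hs, ht, rfl⟩
      · rintro ⟨s, t, hs, ht, rfl⟩
        exact ⟨_, ⟨s, hs, rfl⟩, t, ht, rfl⟩
    rw [this]
    exact isOpen_exists_mem_and _ _ _ (fun w => iha n w) (fun w => ihb n w) ()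
  | comp a b iha ihb =>
    have : {x : ℕ → ℕ | v ∈ eval x (Code.comp a b) n} =
        ⋃ w, ({x | w ∈ eval x b n} ∩ {x | v ∈ eval x a w}) := by
      ext x
      simp only [eval, Set.mem_ofPred_eq, Bind.bind, Part.mem_bind_iff, Set.mem_iUnion,
        Set.mem_inter_iff]
    rw [this]
    exact isOpen_iUnion fun w => (ihb n w).inter (iha w v)
  | prec a b iha ihb =>
    have key : ∀ (m k w : ℕ), IsOpen {x : ℕ → ℕ | w ∈ (Nat.rec (eval x a m) (fun y IH => do
        let i ← IH
        eval x b (Nat.pair m (Nat.pair y i))) k : Part ℕ)} := by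
      intro m k
      induction k with
      | zero => exact fun w => iha m w
      | succ k ihk =>
        intro w
        have : {x : ℕ → ℕ | w ∈ (Nat.rec (eval x a m) (fun y IH => do
            let i ← IH
            eval x b (Nat.pair m (Nat.pair y i))) (k + 1) : Part ℕ)} =
            ⋃ i, ({x : ℕ → ℕ | i ∈ (Nat.rec (eval x a m) (fun y IH => do
              let i ← IH
              eval x b (Nat.pair m (Nat.pair y i))) k : Part ℕ)} ∩
              {x | w ∈ eval x b (Nat.pair m (Nat.pair k i))}) := by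
          ext x
          simp only [Set.mem_ofPred_eq, Bind.bind, Part.mem_bind_iff, Set.mem_iUnion,
            Set.mem_inter_iff]
        rw [this]
        exact isOpen_iUnion fun i => (ihk i).inter (ihb _ _)
    exact key n.unpair.1 n.unpair.2 v
  | rfind a iha =>
    have : {x : ℕ → ℕ | v ∈ eval x (Code.rfind a) n} =
        {x | 0 ∈ eval x a (Nat.pair n v)} ∩
          ⋂ m ∈ Finset.range v, ⋃ w, {x | w + 1 ∈ eval x a (Nat.pair n m)} := by
      ext x
      simp only [eval, Set.mem_ofPred_eq, Nat.mem_rfind, Set.mem_inter_iff, Set.mem_iInter,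
        Set.mem_iUnion, Finset.mem_range]
      constructor
      · rintro ⟨h1, h2⟩
        constructor
        · obtain ⟨k, hk, hk'⟩ := (Part.mem_map_iff _).1 h1
          have : k = 0 := by simpa using hk'
          rwa [this] at hk
        · intro m hm
          obtain ⟨k, hk, hk'⟩ := (Part.mem_map_iff _).1 (h2 hm)
          have : k ≠ 0 := by simpa using hk'
          obtain ⟨w, rfl⟩ := Nat.exists_eq_succ_of_ne_zero this
          exact ⟨w, hk⟩
      · rintro ⟨h1, h2⟩
        refine ⟨(Part.mem_map_iff _).2 ⟨0, h1, by simp⟩, ?_⟩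
        intro m hm
        obtain ⟨w, hw⟩ := h2 m hm
        exact (Part.mem_map_iff _).2 ⟨w + 1, hw, by simp⟩
    rw [this]
    exact (iha _ _).inter (isOpen_biInter_finset fun m _ => isOpen_iUnion fun w => iha _ _)

end UnifRep
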