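import Pool.Agent.Lib_MP_f59448_lc.Cantor
import Pool.Agent.Lib_MP_f59448_lc.Open

/-!
# One extension step: strings which avoid a functional
-/

namespace UnifRep

theorem avoid_Cyl_append (s s' : List Bool) : Cyl (s ++ s') ⊆ Cyl s := by
  intro x hx i hi
  have h := hx i (by simp; omega)
  rw [h, List.getD_append _ _ _ _ hi]

theorem Avoid.append {z : ℕ → ℕ} {c : Code} {s t : List Bool} (h : Avoid z c s t)
    (s' t' : List Bool) : Avoid z c (s ++ s') (t ++ t') :=
  fun x hx y hy => h x (avoid_Cyl_append s s' hx) y (avoid_Cyl_append t t' hy)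

theorem avoid_continuous_emb (z : ℕ → ℕ) : Continuous (emb z) := by
  refine continuous_pi fun n => ?_
  unfold emb
  by_cases h : n % 2 = 0
  · simp only [if_pos h]
    exact continuous_const
  · simp only [if_neg h]
    exact (continuous_of_discreteTopology (f := Bool.toNat)).comp (continuous_apply (n / 2))

/-- An open subset of the Cantor space contains, with a point, all points that agree with it
below some `N`. -/
theorem avoid_exists_nhd {U : Set (ℕ → Bool)} (hU : IsOpen U) {x : ℕ → Bool} (hx : x ∈ U) :
    ∃ N : ℕ, ∀ x' : ℕ → Bool, (∀ i < N, x' i = x i) → x' ∈ U := by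
  have h := hU.mem_nhds hx
  rw [nhds_pi, Filter.mem_pi] at h
  obtain ⟨I, hI, t, ht, hsub⟩ := h
  obtain ⟨M, hM⟩ := hI.bddAbove
  refine ⟨M + 1, fun x' hx' => hsub ?_⟩
  intro i hi
  have h1 : i ≤ M := hM hi
  rw [hx' i (by omega)]
  exact mem_of_mem_nhds (ht i)

theorem exists_avoid (z : ℕ → ℕ) (c : Code) (s t : List Bool) :
    ∃ s' t', Avoid z c (s ++ s') (t ++ t') := by
  classical
  set k : ℕ := 2 * t.length + 1 with hk
  by_cases hex : ∃ x ∈ Cyl s, ∃ v, v ∈ eval (emb z x) c k
  · obtain ⟨x, hx, v, hv⟩ := hex
    have hU : IsOpen (emb z ⁻¹' {g | v ∈ eval g c k}) :=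
      (isOpen_eval c k v).preimage (avoid_continuous_emb z)
    obtain ⟨N, hN⟩ := avoid_exists_nhd hU (x := x) hv
    set M : ℕ := max N s.length with hM
    let s' : List Bool := (List.range (M - s.length)).map fun i => x (s.length + i)
    have hs' : ∀ x' ∈ Cyl (s ++ s'), ∀ i < N, x' i = x i := by
      intro x' hx' i hi
      by_cases h1 : i < s.length
      · rw [avoid_Cyl_append s s' hx' i h1, hx i h1]
      · have hlen : (s ++ s').length = M := by
          simp only [s', List.length_append, List.length_map, List.length_range]
          omega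
        have h2 : i < (s ++ s').length := by omega
        rw [hx' i h2, List.getD_append_right _ _ _ _ (by omega)]
        have h3 : i - s.length < s'.length := by
          simp only [s', List.length_map, List.length_range]
          omega
        rw [List.getD_eq_getElem _ _ h3]
        simp only [s', List.getElem_map, List.getElem_range]
        congr 1
        omega
    let β : Bool := decide (v = 0)
    have hβ : β.toNat ≠ v := by
      simp only [β]
      by_cases h0 : v = 0
      · simp [h0]
      · simp only [h0, decide_false, Bool.toNat_false]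
        exact Ne.symm h0
    refine ⟨s', [β], fun x' hx' y hy hc => hβ ?_⟩
    have h1 : v ∈ eval (emb z x') c k := hN x' (hs' x' hx')
    have h2 := hc k
    have h3 : emb z y k = v := Part.mem_unique h2 h1
    rw [← h3]
    have h4 : y t.length = β := by
      rw [hy t.length (by simp), List.getD_append_right _ _ _ _ le_rfl]
      simp
    unfold emb
    rw [if_neg (by omega), show k / 2 = t.length by omega, h4]
  · refine ⟨[], [], fun x hx y _ hc => hex ?_⟩
    rw [List.append_nil] at hx
    exact ⟨x, hx, _, hc k⟩

end UnifRep
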