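import Pool.Agent.Lib_MP_f59448_lc.Cantor
import Pool.Agent.Lib_MP_f59448_lc.Open

open Topology Filter

namespace UnifRep

theorem baire_preimage (H : (ℕ → Bool) → (ℕ → ℕ))
    (hH : ∀ n m, BaireMeasurableSet {x | H x n = m}) (U : Set (ℕ → ℕ)) (hU : IsOpen U) :
    BaireMeasurableSet (H ⁻¹' U) := by
  have h1 : @Measurable _ _ (eventuallyMeasurableSpace (borel (ℕ → Bool)) (residual (ℕ → Bool)))
      _ H := by
    refine @measurable_pi_lambda (ℕ → Bool) ℕ (fun _ => ℕ)
      (eventuallyMeasurableSpace (borel (ℕ → Bool)) (residual (ℕ → Bool))) _ H fun n => ?_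
    refine @measurable_to_countable' ℕ (ℕ → Bool) _ _
      (eventuallyMeasurableSpace (borel (ℕ → Bool)) (residual (ℕ → Bool))) _ fun m => ?_
    exact hH n m
  exact h1 hU.measurableSet

theorem baire_computes (H K : (ℕ → Bool) → (ℕ → ℕ))
    (hH : ∀ n m, BaireMeasurableSet {x | H x n = m})
    (hK : ∀ n m, BaireMeasurableSet {x | K x n = m}) (c : Code) :
    BaireMeasurableSet {x | Computes c (H x) (K x)} := by
  have h : {x | Computes c (H x) (K x)} =
      ⋂ n : ℕ, ⋃ v : ℕ, ({x | K x n = v} ∩ H ⁻¹' {g | v ∈ eval g c n}) := by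
    ext x
    simp only [Computes, Set.mem_ofPred_eq, Set.mem_iInter, Set.mem_iUnion, Set.mem_inter_iff,
      Set.mem_preimage]
    constructor
    · intro h n
      exact ⟨K x n, rfl, h n⟩
    · intro h n
      obtain ⟨v, h1, h2⟩ := h n
      rw [h1]; exact h2
  rw [h]
  refine BaireMeasurableSet.iInter fun n => BaireMeasurableSet.iUnion fun v => ?_
  exact (hK n v).inter (baire_preimage H hH _ (isOpen_eval c n v))

theorem exists_cylinder_subset {U : Set (ℕ → Bool)} (hU : IsOpen U) {x : ℕ → Bool} (hx : x ∈ U) :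
    ∃ M : ℕ, {y : ℕ → Bool | ∀ j < M, y j = x j} ⊆ U := by
  have h1 : U ∈ 𝓝 x := hU.mem_nhds hx
  rw [nhds_pi, Filter.mem_pi] at h1
  obtain ⟨I, hI, t, ht, hs⟩ := h1
  obtain ⟨M, hM⟩ := hI.bddAbove
  refine ⟨M + 1, fun y hy => hs fun i hi => ?_⟩
  have h2 : y i = x i := hy i (Nat.lt_succ_of_le (hM hi))
  rw [h2]
  exact mem_of_mem_nhds (ht i)

theorem exists_cylinder {ι : Type*} [Countable ι] (B : ι → Set (ℕ → Bool))
    (hB : ∀ i, BaireMeasurableSet (B i)) (hcov : ∀ x, ∃ i, x ∈ B i) :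
    ∃ (i : ι) (M : ℕ) (s : ℕ → Bool), IsMeagre ({x | ∀ j < M, x j = s j} \ B i) := by
  choose U hU hBU using fun i => (hB i).residualEq_isOpen
  by_cases hne : ∃ i, (U i).Nonempty
  · obtain ⟨i, x, hx⟩ := hne
    obtain ⟨M, hM⟩ := exists_cylinder_subset (hU i) hx
    refine ⟨i, M, x, ?_⟩
    have h1 : ∀ᶠ y in residual (ℕ → Bool), (y ∈ B i) = (y ∈ U i) := hBU i
    rw [IsMeagre]
    filter_upwards [h1] with y hy
    intro hmem
    apply hmem.2
    rw [hy]
    exact hM hmem.1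
  · exfalso
    push Not at hne
    have h1 : ∀ i, (B i)ᶜ ∈ residual (ℕ → Bool) := by
      intro i
      have h2 : ∀ᶠ y in residual (ℕ → Bool), (y ∈ B i) = (y ∈ U i) := hBU i
      filter_upwards [h2] with y hy
      intro hmem
      rw [hy, hne i] at hmem
      exact hmem
    have h3 : (⋂ i, (B i)ᶜ) ∈ residual (ℕ → Bool) := countable_iInter_mem.2 h1
    have h4 := (dense_of_mem_residual h3).nonempty
    obtain ⟨x, hx⟩ := h4
    obtain ⟨i, hi⟩ := hcov x
    exact (Set.mem_iInter.1 hx i) hi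

end UnifRep
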