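import Pool.Agent.Lib_MP_f59448_lc.Cantor
import Pool.Agent.Lib_MP_f59448_lc.Open

/-!
# The Borel representative
-/

open Topology MeasureTheory

namespace UnifRep.BorelRep

deriving instance Encodable for UnifRep.Code

theorem exists_pairs : ∃ P : ℕ → Code × Code, Function.Surjective P := by
  have : Nonempty Code := ⟨Code.zero⟩
  exact exists_surjective_nat (Code × Code)

end UnifRep.BorelRep

namespace UnifRep

open Classical in
/-- the total function computed by `c` from `z`, with the value `0` where it is undefined -/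
noncomputable def tot (c : Code) (z : ℕ → ℕ) : ℕ → ℕ := fun n =>
  if h : ∃ v, v ∈ eval z c n then h.choose else 0

theorem tot_eq_of_mem {c : Code} {z : ℕ → ℕ} {n v : ℕ} (h : v ∈ eval z c n) :
    tot c z n = v := by
  have h' : ∃ v, v ∈ eval z c n := ⟨v, h⟩
  rw [tot, dif_pos h']
  exact Part.mem_unique h'.choose_spec h

theorem tot_eq_of_computes {c : Code} {z y : ℕ → ℕ} (h : Computes c z y) : tot c z = y := by
  funext n
  exact tot_eq_of_mem (h n)

theorem measurable_tot (c : Code) : Measurable (tot c) := by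
  refine measurable_pi_iff.2 fun n => ?_
  refine measurable_to_countable' fun v => ?_
  have hset : (fun z => tot c z n) ⁻¹' {v} =
      {z | v ∈ eval z c n} ∪ ({z | v = 0} ∩ ⋂ w, {z | w ∈ eval z c n}ᶜ) := by
    ext z
    simp only [Set.mem_preimage, Set.mem_singleton_iff, Set.mem_union, Set.mem_ofPred_eq,
      Set.mem_inter_iff, Set.mem_iInter, Set.mem_compl_iff]
    by_cases h : ∃ v, v ∈ eval z c n
    · obtain ⟨w, hw⟩ := h
      rw [tot_eq_of_mem hw]
      constructor
      · rintro rfl
        exact Or.inl hw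
      · rintro (h1 | ⟨-, h1⟩)
        · exact Part.mem_unique hw h1
        · exact absurd hw (h1 w)
    · rw [tot, dif_neg h]
      push Not at h
      constructor
      · rintro rfl
        exact Or.inr ⟨rfl, h⟩
      · rintro (h1 | ⟨h1, -⟩)
        · exact absurd h1 (h v)
        · exact h1.symm
  rw [hset]
  refine (isOpen_eval c n v).measurableSet.union ?_
  refine MeasurableSet.inter (MeasurableSet.const _) ?_
  exact MeasurableSet.iInter fun w => (isOpen_eval c n w).measurableSet.compl

theorem measurable_hmap : Measurable hmap := by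
  refine measurable_pi_iff.2 fun n => ?_
  have h1 : Measurable fun x : ℕ → Bool => (x (2 * n + 1), x (2 * n), x (2 * n + 2)) :=
    (measurable_pi_apply _).prodMk ((measurable_pi_apply _).prodMk (measurable_pi_apply _))
  have h2 : Measurable fun p : Bool × Bool × Bool => (xor p.1 (p.2.1 && p.2.2)).toNat :=
    Measurable.of_discrete
  exact h2.comp h1

theorem exists_borel (φ : (ℕ → Bool) → (ℕ → ℕ)) (hφ : Continuous φ) (hi : Function.Injective φ) :
    ∃ F : (ℕ → ℕ) → (ℕ → ℕ), Measurable F ∧
      (∀ z, (∃ x, TuringEq z (φ x)) → ∃ x, TuringEq z (φ x) ∧ F z = hmap x) ∧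
      (∀ z, (¬ ∃ x, TuringEq z (φ x)) → F z = fun _ => 0) := by
  classical
  have hce : IsClosedEmbedding φ := hφ.isClosedEmbedding hi
  have hme : MeasurableEmbedding φ := hce.measurableEmbedding
  obtain ⟨g, hg, hgφ⟩ := hme.exists_measurable_extend measurable_hmap (fun _ => ⟨fun _ => 0⟩)
  obtain ⟨P, hP⟩ := BorelRep.exists_pairs
  -- the domains
  let D : ℕ → Set (ℕ → ℕ) := fun i =>
    {z | ∃ x, Computes (P i).1 z (φ x) ∧ Computes (P i).2 (φ x) z}
  have hD : ∀ i, MeasurableSet (D i) := by
    intro i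
    have hset : D i = (⋂ n, ⋃ v, {z | v ∈ eval z (P i).1 n}) ∩ (tot (P i).1 ⁻¹' (Set.range φ)) ∩
        ⋂ n, ⋃ v, ({z : ℕ → ℕ | z n = v} ∩ tot (P i).1 ⁻¹' {y | v ∈ eval y (P i).2 n}) := by
      ext z
      simp only [D, Set.mem_ofPred_eq, Set.mem_inter_iff, Set.mem_iInter, Set.mem_iUnion,
        Set.mem_preimage, Set.mem_range]
      constructor
      · rintro ⟨x, h1, h2⟩
        rw [tot_eq_of_computes h1]
        exact ⟨⟨fun n => ⟨_, h1 n⟩, ⟨x, rfl⟩⟩, fun n => ⟨z n, rfl, h2 n⟩⟩
      · rintro ⟨⟨h1, ⟨x, hx⟩⟩, h2⟩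
        refine ⟨x, ?_, ?_⟩
        · intro n
          obtain ⟨v, hv⟩ := h1 n
          rw [hx, tot_eq_of_mem hv]
          exact hv
        · intro n
          obtain ⟨v, hv, hv'⟩ := h2 n
          rw [hx, hv]
          exact hv'
    rw [hset]
    refine MeasurableSet.inter (MeasurableSet.inter ?_ ?_) ?_
    · exact MeasurableSet.iInter fun n => MeasurableSet.iUnion fun v =>
        (isOpen_eval _ n v).measurableSet
    · exact measurable_tot _ hce.isClosed_range.measurableSet
    · refine MeasurableSet.iInter fun n => MeasurableSet.iUnion fun v => MeasurableSet.inter ?_ ?_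
      · exact (measurable_pi_apply (X := fun _ : ℕ => ℕ) n) (measurableSet_singleton v)
      · exact measurable_tot _ (isOpen_eval _ n v).measurableSet
  let f : ℕ → (ℕ → ℕ) → (ℕ → ℕ) := fun i z =>
    if z ∈ D i then g (tot (P i).1 z) else fun _ => 0
  have hf : ∀ i, Measurable (f i) := fun i =>
    Measurable.ite (hD i) (hg.comp (measurable_tot _)) measurable_const
  let p : ℕ → (ℕ → ℕ) → Prop := fun i z => z ∈ D i ∨ ∀ j, z ∉ D j
  have hp : ∀ i, MeasurableSet {z | p i z} := by
    intro i
    have : {z | p i z} = D i ∪ ⋂ j, (D j)ᶜ := by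
      ext z
      simp [p]
    rw [this]
    exact (hD i).union (MeasurableSet.iInter fun j => (hD j).compl)
  have hex : ∀ z, ∃ i, p i z := by
    intro z
    by_cases h : ∃ i, z ∈ D i
    · obtain ⟨i, hi⟩ := h
      exact ⟨i, Or.inl hi⟩
    · push Not at h
      exact ⟨0, Or.inr h⟩
  refine ⟨fun z => f (Nat.find (hex z)) z, Measurable.find hf hp hex, ?_, ?_⟩
  · rintro z ⟨x, ⟨c, hc⟩, ⟨c', hc'⟩⟩
    obtain ⟨i, hPi⟩ := hP (c, c')
    have hzi : z ∈ D i := ⟨x, by rw [hPi]; exact hc, by rw [hPi]; exact hc'⟩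
    have hz : z ∈ D (Nat.find (hex z)) := by
      rcases Nat.find_spec (hex z) with h | h
      · exact h
      · exact absurd hzi (h i)
    obtain ⟨y, hy1, hy2⟩ := id hz
    refine ⟨y, ⟨⟨_, hy1⟩, ⟨_, hy2⟩⟩, ?_⟩
    show f (Nat.find (hex z)) z = hmap y
    simp only [f, if_pos hz]
    rw [tot_eq_of_computes hy1]
    exact congrFun hgφ y
  · intro z hz
    have hz' : z ∉ D (Nat.find (hex z)) := by
      rintro ⟨x, h1, h2⟩
      exact hz ⟨x, ⟨_, h1⟩, ⟨_, h2⟩⟩
    show f (Nat.find (hex z)) z = fun _ => 0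
    simp only [f, if_neg hz']

end UnifRep
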