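import Pool.Agent.Lib_MP_f59448_lc.Defs

namespace UnifRep

/-- the embedding `x ↦ z ⊕ x` of the Cantor space into the Baire space (`z` at the even places,
the bits of `x` at the odd places) -/
def emb (z : ℕ → ℕ) (x : ℕ → Bool) : ℕ → ℕ :=
  fun n => if n % 2 = 0 then z (n / 2) else (x (n / 2)).toNat

/-- the points of the Cantor space that extend the finite string `s` -/
def Cyl (s : List Bool) : Set (ℕ → Bool) := {x | ∀ i < s.length, x i = s.getD i false}

/-- for no `y` above `t` and no `x` above `s` the program `c` computes `z ⊕ y` from `z ⊕ x` -/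
def Avoid (z : ℕ → ℕ) (c : Code) (s t : List Bool) : Prop :=
  ∀ x ∈ Cyl s, ∀ y ∈ Cyl t, ¬ Computes c (emb z x) (emb z y)

/-- concatenation of the blocks `b 0 (x 0), b 1 (x 1), ..., b (n-1) (x (n-1))` -/
def str (b : ℕ → Bool → List Bool) (x : ℕ → Bool) : ℕ → List Bool
  | 0 => []
  | n + 1 => str b x n ++ b n (x n)

/-- the infinite concatenation of the blocks `b n (x n)` -/
def phi (b : ℕ → Bool → List Bool) (x : ℕ → Bool) : ℕ → Bool :=
  fun k => (str b x (k + 1)).getD k false

/-- change the coordinate `q` -/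
def flip (q : ℕ) (x : ℕ → Bool) : ℕ → Bool := Function.update x q (!x q)

/-- the map `h`: with `u n = x (2n)`, `w n = x (2n+1)` it is `w n + u n u (n+1)` mod 2 -/
def hmap (x : ℕ → Bool) : ℕ → ℕ :=
  fun n => (xor (x (2 * n + 1)) (x (2 * n) && x (2 * n + 2))).toNat

/-- the twist: it changes `u (n+1)` and corrects `w n`, `w (n+1)` so that `h` does not change -/
def theta (n : ℕ) (x : ℕ → Bool) : ℕ → Bool := fun k =>
  if k = 2 * n + 2 then !x k else if k = 2 * n + 1 then xor (x k) (x (2 * n)) else
    if k = 2 * n + 3 then xor (x k) (x (2 * n + 4)) else x k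

end UnifRep
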