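import Pool.Agent.Lib_MP_f59448_lc.Functional

open Topology

namespace UnifRep

theorem continuous_hmap : Continuous hmap := by
  refine continuous_pi fun n => ?_
  have h : Continuous fun x : ℕ → Bool => (x (2 * n + 1), x (2 * n), x (2 * n + 2)) :=
    (continuous_apply _).prodMk ((continuous_apply _).prodMk (continuous_apply _))
  exact (continuous_of_discreteTopology
    (f := fun p : Bool × Bool × Bool => (xor p.1 (p.2.1 && p.2.2)).toNat)).comp h

theorem hmap_finite (x y : ℕ → Bool) (N : ℕ) (h : ∀ n, N ≤ n → x n = y n) :
    TuringEq (hmap x) (hmap y) := by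
  refine turingEq_of_finite_diff _ _ N fun n hn => ?_
  unfold hmap
  rw [h (2 * n + 1) (by omega), h (2 * n) (by omega), h (2 * n + 2) (by omega)]

theorem theta_of_ne {n k : ℕ} (x : ℕ → Bool) (h1 : k ≠ 2 * n + 2) (h2 : k ≠ 2 * n + 1)
    (h3 : k ≠ 2 * n + 3) : theta n x k = x k := by
  simp only [theta, h1, h2, h3, if_false]

theorem theta_two (n : ℕ) (x : ℕ → Bool) : theta n x (2 * n + 2) = !x (2 * n + 2) := by
  simp [theta]

theorem theta_one (n : ℕ) (x : ℕ → Bool) :
    theta n x (2 * n + 1) = xor (x (2 * n + 1)) (x (2 * n)) := by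
  simp [theta]

theorem theta_three (n : ℕ) (x : ℕ → Bool) :
    theta n x (2 * n + 3) = xor (x (2 * n + 3)) (x (2 * n + 4)) := by
  simp [theta]

theorem hmap_theta (n : ℕ) (x : ℕ → Bool) : hmap (theta n x) = hmap x := by
  funext k
  unfold hmap
  rcases lt_trichotomy k n with hk | hk | hk
  · rw [theta_of_ne x (by omega) (by omega) (by omega), theta_of_ne x (by omega) (by omega) (by omega),
      theta_of_ne x (by omega) (by omega) (by omega)]
  · subst hk
    rw [theta_one, theta_two, theta_of_ne x (by omega) (by omega) (by omega)]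
    cases x (2 * k + 1) <;> cases x (2 * k) <;> cases x (2 * k + 2) <;> rfl
  · rcases Nat.lt_or_ge k (n + 2) with hk2 | hk2
    · obtain rfl : k = n + 1 := by omega
      have e1 : 2 * (n + 1) + 1 = 2 * n + 3 := by ring
      have e2 : 2 * (n + 1) = 2 * n + 2 := by ring
      have e3 : 2 * n + 2 + 2 = 2 * n + 4 := by ring
      rw [e1, e2, e3, theta_three, theta_two, theta_of_ne x (k := 2 * n + 4) (by omega) (by omega) (by omega)]
      cases x (2 * n + 3) <;> cases x (2 * n + 2) <;> cases x (2 * n + 4) <;> rfl
    · rw [theta_of_ne x (by omega) (by omega) (by omega), theta_of_ne x (by omega) (by omega) (by omega),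
        theta_of_ne x (by omega) (by omega) (by omega)]

theorem hmap_flip_theta (n : ℕ) (x : ℕ → Bool) :
    hmap (flip (2 * n) (theta n x)) ≠ hmap (flip (2 * n) x) := by
  intro h
  have h1 := congrFun h n
  unfold hmap flip at h1
  rw [Function.update_self, Function.update_of_ne (by omega), Function.update_of_ne (by omega),
    Function.update_self, Function.update_of_ne (by omega), Function.update_of_ne (by omega),
    theta_one, theta_two, theta_of_ne x (k := 2 * n) (by omega) (by omega) (by omega)] at h1
  revert h1
  cases x (2 * n + 1) <;> cases x (2 * n) <;> cases x (2 * n + 2) <;> simp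

theorem flip_flip (q : ℕ) (x : ℕ → Bool) : flip q (flip q x) = x := by
  funext k
  by_cases hk : k = q
  · subst hk; simp [flip]
  · simp [flip, Function.update_of_ne hk]

theorem continuous_flip (q : ℕ) : Continuous (flip q) := by
  refine continuous_pi fun k => ?_
  by_cases hk : k = q
  · subst hk
    have : (fun x : ℕ → Bool => flip k x k) = fun x => !(x k) := by
      funext x; simp [flip]
    rw [this]
    exact (continuous_of_discreteTopology (f := not)).comp (continuous_apply k)
  · have : (fun x : ℕ → Bool => flip q x k) = fun x => x k := by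
      funext x; simp [flip, Function.update_of_ne hk]
    rw [this]
    exact continuous_apply k

theorem theta_theta (n : ℕ) (x : ℕ → Bool) : theta n (theta n x) = x := by
  funext k
  by_cases h2 : k = 2 * n + 2
  · subst h2
    rw [theta_two, theta_two, Bool.not_not]
  by_cases h1 : k = 2 * n + 1
  · subst h1
    rw [theta_one, theta_one, theta_of_ne x (k := 2 * n) (by omega) (by omega) (by omega)]
    cases x (2 * n + 1) <;> cases x (2 * n) <;> rfl
  by_cases h3 : k = 2 * n + 3
  · subst h3
    rw [theta_three, theta_three, theta_of_ne x (k := 2 * n + 4) (by omega) (by omega) (by omega)]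
    cases x (2 * n + 3) <;> cases x (2 * n + 4) <;> rfl
  · rw [theta_of_ne _ h2 h1 h3, theta_of_ne _ h2 h1 h3]

theorem continuous_theta (n : ℕ) : Continuous (theta n) := by
  refine continuous_pi fun k => ?_
  by_cases h2 : k = 2 * n + 2
  · subst h2
    simp only [theta_two]
    exact (continuous_of_discreteTopology (f := not)).comp (continuous_apply (A := fun _ : ℕ => Bool) _)
  by_cases h1 : k = 2 * n + 1
  · subst h1
    simp only [theta_one]
    exact (continuous_of_discreteTopology (f := fun p : Bool × Bool => xor p.1 p.2)).comp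
      ((continuous_apply (A := fun _ : ℕ => Bool) _).prodMk (continuous_apply (A := fun _ : ℕ => Bool) _))
  by_cases h3 : k = 2 * n + 3
  · subst h3
    simp only [theta_three]
    exact (continuous_of_discreteTopology (f := fun p : Bool × Bool => xor p.1 p.2)).comp
      ((continuous_apply (A := fun _ : ℕ => Bool) _).prodMk (continuous_apply (A := fun _ : ℕ => Bool) _))
  · simp only [theta_of_ne _ h2 h1 h3]
    exact continuous_apply k

theorem isMeagre_preimage_of_involution {g : (ℕ → Bool) → (ℕ → Bool)} (hg : Continuous g)
    (hi : ∀ x, g (g x) = x) {s : Set (ℕ → Bool)} (hs : IsMeagre s) : IsMeagre (g ⁻¹' s) := by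
  let e : (ℕ → Bool) ≃ₜ (ℕ → Bool) :=
    { toFun := g, invFun := g, left_inv := hi, right_inv := hi,
      continuous_toFun := hg, continuous_invFun := hg }
  exact hs.preimage_of_isOpenMap hg e.isOpenMap

theorem isMeagre_preimage_flip (q : ℕ) {s : Set (ℕ → Bool)} (hs : IsMeagre s) :
    IsMeagre (flip q ⁻¹' s) :=
  isMeagre_preimage_of_involution (continuous_flip q) (flip_flip q) hs

theorem isMeagre_preimage_theta (n : ℕ) {s : Set (ℕ → Bool)} (hs : IsMeagre s) :
    IsMeagre (theta n ⁻¹' s) :=
  isMeagre_preimage_of_involution (continuous_theta n) (theta_theta n) hs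

end UnifRep
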