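import Pool.Agent.Lib_MP_f59448_lc.Recursive
import Pool.Agent.Lib_MP_f59448_lc.Hmap
import Pool.Agent.Lib_MP_f59448_lc.BaireProp

open Topology

namespace UnifRep

/-- the category argument -/
theorem no_uniform (H : (ℕ → Bool) → (ℕ → ℕ))
    (hH : ∀ n m, BaireMeasurableSet {x | H x n = m}) (hE : ∀ x, TuringEq (H x) (hmap x))
    (hflip : ∀ q, ∃ c, ∀ x, Computes c (H x) (H (flip q x))) : False := by
  have hK : ∀ n m, BaireMeasurableSet {x | hmap x n = m} := by
    intro n m
    have : IsOpen {x | hmap x n = m} :=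
      (isOpen_discrete {m}).preimage ((continuous_apply n).comp continuous_hmap)
    exact this.baireMeasurableSet
  obtain ⟨⟨a, b⟩, M, s, hM⟩ := exists_cylinder
    (fun p : Code × Code => {x | Computes p.1 (hmap x) (H x)} ∩ {x | Computes p.2 (H x) (hmap x)})
    (fun p => (baire_computes _ _ hK hH p.1).inter (baire_computes _ _ hH hK p.2))
    (fun x => by
      obtain ⟨⟨c, hc⟩, ⟨c', hc'⟩⟩ := hE x
      exact ⟨(c', c), hc', hc⟩)
  set N : Set (ℕ → Bool) := {x | ∀ j < M, x j = s j} with hN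
  set B : Set (ℕ → Bool) := {x | Computes a (hmap x) (H x)} ∩ {x | Computes b (H x) (hmap x)} with hB
  -- a point all of whose relevant modifications are in `B`
  have h1 : IsMeagre (N \ B ∪ flip (2 * M) ⁻¹' (N \ B) ∪ theta M ⁻¹' (N \ B) ∪
      theta M ⁻¹' (flip (2 * M) ⁻¹' (N \ B))) :=
    ((hM.union (isMeagre_preimage_flip _ hM)).union (isMeagre_preimage_theta _ hM)).union
      (isMeagre_preimage_theta _ (isMeagre_preimage_flip _ hM))
  have hNopen : IsOpen N := by
    have : N = ⋂ j ∈ Finset.range M, {x : ℕ → Bool | x j = s j} := by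
      ext x; simp [hN]
    rw [this]
    exact isOpen_biInter_finset fun j _ =>
      (isOpen_discrete {s j}).preimage (continuous_apply (A := fun _ : ℕ => Bool) j)
  have hNne : N.Nonempty := ⟨s, fun _ _ => rfl⟩
  obtain ⟨x, hxN, hx⟩ : ∃ x ∈ N, x ∉ (N \ B ∪ flip (2 * M) ⁻¹' (N \ B) ∪ theta M ⁻¹' (N \ B) ∪
      theta M ⁻¹' (flip (2 * M) ⁻¹' (N \ B))) := by
    have hd := dense_of_mem_residual h1
    obtain ⟨x, hx1, hx2⟩ := hd.inter_open_nonempty N hNopen hNne
    exact ⟨x, hx1, hx2⟩
  have hflipN : ∀ y ∈ N, flip (2 * M) y ∈ N := by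
    intro y hy j hj
    have : j ≠ 2 * M := by omega
    simp only [flip, Function.update_of_ne this]
    exact hy j hj
  have hthetaN : ∀ y ∈ N, theta M y ∈ N := by
    intro y hy j hj
    have h1 : j ≠ 2 * M + 2 := by omega
    have h2 : j ≠ 2 * M + 1 := by omega
    have h3 : j ≠ 2 * M + 3 := by omega
    simp only [theta, h1, h2, h3, if_false]
    exact hy j hj
  simp only [Set.mem_union, not_or, Set.mem_preimage, Set.mem_sdiff, not_and, not_not] at hx
  obtain ⟨⟨⟨hx1, hx2⟩, hx3⟩, hx4⟩ := hx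
  have b1 := hx1 hxN
  have b2 := hx2 (hflipN _ hxN)
  have b3 := hx3 (hthetaN _ hxN)
  have b4 := hx4 (hflipN _ (hthetaN _ hxN))
  have e1 : H (theta M x) = H x := by
    funext n
    have p1 := b3.1 n
    rw [hmap_theta] at p1
    exact Part.mem_unique p1 (b1.1 n)
  obtain ⟨c, hc⟩ := hflip (2 * M)
  have e2 : H (flip (2 * M) (theta M x)) = H (flip (2 * M) x) := by
    funext n
    have p1 := hc (theta M x) n
    rw [e1] at p1
    exact Part.mem_unique p1 (hc x n)
  refine hmap_flip_theta M x ?_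
  funext n
  have p1 := b4.2 n
  rw [e2] at p1
  exact Part.mem_unique p1 (b2.2 n)

end UnifRep
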