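import Mathlib

/-!
# Turing functionals, Turing degrees of reals, uniformly representable functions on degrees

Reals are elements of the Baire space `ℕ → ℕ` (with the product topology and product σ-algebra,
which is its Borel σ-algebra).
-/

namespace UnifRep

/-- Codes (programs) for the partial recursive functionals: the usual schemes for the partial
recursive functions, together with an instruction that asks the oracle. -/
inductive Code : Type
  | zero : Code
  | succ : Code
  | left : Code
  | right : Code
  | oracle : Code
  | pair : Code → Code → Code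
  | comp : Code → Code → Code
  | prec : Code → Code → Code
  | rfind : Code → Code

/-- `eval x c` is the partial function computed by the program `c` with oracle `x`. -/
def eval (x : ℕ → ℕ) : Code → ℕ →. ℕ
  | Code.zero => fun _ => Part.some 0
  | Code.succ => fun n => Part.some (n + 1)
  | Code.left => fun n => Part.some n.unpair.1
  | Code.right => fun n => Part.some n.unpair.2
  | Code.oracle => fun n => Part.some (x n)
  | Code.pair a b => fun n => Nat.pair <$> eval x a n <*> eval x b n
  | Code.comp a b => fun n => eval x b n >>= eval x a
  | Code.prec a b => fun p =>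
      p.unpair.2.rec (eval x a p.unpair.1) fun y IH => do
        let i ← IH
        eval x b (Nat.pair p.unpair.1 (Nat.pair y i))
  | Code.rfind a => fun n => Nat.rfind fun m => (fun k => decide (k = 0)) <$> eval x a (Nat.pair n m)

/-- The program `c` with oracle `x` computes the (total) real `y`. -/
def Computes (c : Code) (x y : ℕ → ℕ) : Prop := ∀ n, y n ∈ eval x c n

/-- Turing equivalence of reals. -/
def TuringEq (x y : ℕ → ℕ) : Prop := (∃ c, Computes c x y) ∧ ∃ c, Computes c y x

/-- The set `𝒟` of Turing degrees. -/
def Deg : Type := Quot TuringEq

/-- The Turing degree of a real. -/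
def deg (x : ℕ → ℕ) : Deg := Quot.mk TuringEq x

/-- `x ≡_T y` via `e`, with respect to the enumeration `Φ` of the programs: if `e = ⟨i, j⟩`, the
`i`-th program computes `y` from `x` and the `j`-th program computes `x` from `y`. -/
def Via (Φ : ℕ → Code) (e : ℕ) (x y : ℕ → ℕ) : Prop :=
  Computes (Φ e.unpair.1) x y ∧ Computes (Φ e.unpair.2) y x

/-- `F` represents the function `f` on degrees: `deg (F x) = f (deg x)` for every real `x`. -/
def Represents (F : (ℕ → ℕ) → (ℕ → ℕ)) (f : Deg → Deg) : Prop := ∀ x, deg (F x) = f (deg x)

/-- The uniformity property of the pair `(F, t)`: if `x ≡_T y` via `e`, then `F x ≡_T F y` via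
`t e`, for all reals `x`, `y` and all `e`. -/
def Uniform (Φ : ℕ → Code) (F : (ℕ → ℕ) → (ℕ → ℕ)) (t : ℕ → ℕ) : Prop :=
  ∀ (x y : ℕ → ℕ) (e : ℕ), Via Φ e x y → Via Φ (t e) (F x) (F y)

end UnifRep
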