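import Pool.Agent.Lib_MP_f59448_lc.Avoid

/-!
# The fusion construction of the blocks
-/

namespace UnifRep

/-- requirements: a program, two strings, and the side of the first one -/
abbrev Req : Type := Code × List Bool × List Bool × Bool

theorem fusion_list (w : ℕ → ℕ) (Q : List Req) (p : Bool → List Bool) :
    ∃ q : Bool → List Bool, ∀ r ∈ Q,
      Avoid w r.1 (r.2.1 ++ (p r.2.2.2 ++ q r.2.2.2)) (r.2.2.1 ++ (p (!r.2.2.2) ++ q (!r.2.2.2))) := by
  induction Q with
  | nil => exact ⟨fun _ => [], by simp⟩
  | cons r Q ih =>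
    obtain ⟨q, hq⟩ := ih
    obtain ⟨c, a, a', i⟩ := r
    obtain ⟨s', t', hst⟩ := exists_avoid w c (a ++ (p i ++ q i)) (a' ++ (p (!i) ++ q (!i)))
    refine ⟨fun j => q j ++ (if j = i then s' else t'), ?_⟩
    intro r' hr'
    rw [List.mem_cons] at hr'
    rcases hr' with rfl | hr'
    · have h1 : (!i) ≠ i := by cases i <;> simp
      simp only [if_true, h1, if_false]
      rw [← List.append_assoc (p i), ← List.append_assoc a, ← List.append_assoc (p (!i)),
        ← List.append_assoc a']
      exact hst
    · have h2 := (hq r' hr').append (if r'.2.2.2 = i then s' else t')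
        (if (!r'.2.2.2) = i then s' else t')
      rw [List.append_assoc, List.append_assoc, List.append_assoc, List.append_assoc] at h2
      exact h2

theorem fusion_step (w : ℕ → ℕ) (Q : List Req) :
    ∃ r : Bool → List Bool, (r true).length = (r false).length ∧ r true ≠ r false ∧
      ∀ z ∈ Q, Avoid w z.1 (z.2.1 ++ r z.2.2.2) (z.2.2.1 ++ r (!z.2.2.2)) := by
  obtain ⟨q, hq⟩ := fusion_list w Q (fun i => [i])
  set m : ℕ := max (q true).length (q false).length with hm
  refine ⟨fun i => ([i] ++ q i) ++ List.replicate (m - (q i).length) false, ?_, ?_, ?_⟩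
  · simp only [List.length_append, List.length_cons, List.length_nil, List.length_replicate]
    have h1 : (q true).length ≤ m := le_max_left _ _
    have h2 : (q false).length ≤ m := le_max_right _ _
    omega
  · intro h
    have h1 := congrArg List.head? h
    simp at h1
  · intro z hz
    have h1 := (hq z hz).append (List.replicate (m - (q z.2.2.2).length) false)
      (List.replicate (m - (q (!z.2.2.2)).length) false)
    simp only [List.append_assoc] at h1 ⊢
    exact h1

/-- extension by false -/
def extB {n : ℕ} (x : Fin n → Bool) : ℕ → Bool := fun k => if h : k < n then x ⟨k, h⟩ else false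

theorem str_congr {b b' : ℕ → Bool → List Bool} {x x' : ℕ → Bool} {n : ℕ}
    (hb : ∀ k < n, b k = b' k) (hx : ∀ k < n, x k = x' k) : str b x n = str b' x' n := by
  induction n with
  | zero => rfl
  | succ n ih =>
    rw [str, str, ih (fun k hk => hb k (by omega)) (fun k hk => hx k (by omega)), hb n (by omega),
      hx n (by omega)]

/-- the requirements at stage `n` -/
noncomputable def reqs (Φ : ℕ → Code) (n : ℕ) (f : ℕ → Bool → List Bool) : List Req :=
  (Finset.univ : Finset (Fin (n + 1) × (Fin n → Bool) × (Fin n → Bool) × Bool)).toList.map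
    (fun z => (Φ z.1, str f (extB z.2.1) n, str f (extB z.2.2.1) n, z.2.2.2))

/-- the next block -/
noncomputable def nextBlock (w : ℕ → ℕ) (Φ : ℕ → Code) (n : ℕ) (f : ℕ → Bool → List Bool) :
    Bool → List Bool := (fusion_step w (reqs Φ n f)).choose

theorem nextBlock_spec (w : ℕ → ℕ) (Φ : ℕ → Code) (n : ℕ) (f : ℕ → Bool → List Bool) :
    (nextBlock w Φ n f true).length = (nextBlock w Φ n f false).length ∧
      nextBlock w Φ n f true ≠ nextBlock w Φ n f false ∧
      ∀ z ∈ reqs Φ n f, Avoid w z.1 (z.2.1 ++ nextBlock w Φ n f z.2.2.2)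
        (z.2.2.1 ++ nextBlock w Φ n f (!z.2.2.2)) :=
  (fusion_step w (reqs Φ n f)).choose_spec

/-- the approximations -/
noncomputable def appr (w : ℕ → ℕ) (Φ : ℕ → Code) : ℕ → (ℕ → Bool → List Bool)
  | 0 => fun _ _ => []
  | n + 1 => Function.update (appr w Φ n) n (nextBlock w Φ n (appr w Φ n))

/-- the blocks -/
noncomputable def blocks (w : ℕ → ℕ) (Φ : ℕ → Code) (n : ℕ) : Bool → List Bool := nextBlock w Φ n (appr w Φ n)

theorem appr_eq (w : ℕ → ℕ) (Φ : ℕ → Code) (n k : ℕ) (hk : k < n) : appr w Φ n k = blocks w Φ k := by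
  induction n with
  | zero => omega
  | succ n ih =>
    rw [appr]
    by_cases h : k = n
    · subst h
      rw [Function.update_self]
      rfl
    · rw [Function.update_of_ne h]
      exact ih (by omega)

theorem fusion (w : ℕ → ℕ) (Φ : ℕ → Code) : ∃ b : ℕ → Bool → List Bool,
    (∀ n, (b n true).length = (b n false).length) ∧ (∀ n, b n true ≠ b n false) ∧
    ∀ n, ∀ x y : ℕ → Bool, x n ≠ y n → ∀ e ≤ n,
      Avoid w (Φ e) (str b x (n + 1)) (str b y (n + 1)) := by
  refine ⟨blocks w Φ, fun n => (nextBlock_spec w Φ n _).1, fun n => (nextBlock_spec w Φ n _).2.1, ?_⟩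
  intro n x y hxy e he
  have hy : y n = !(x n) := by
    revert hxy
    cases x n <;> cases y n <;> simp
  have hx' : str (appr w Φ n) (extB (fun k : Fin n => x k)) n = str (blocks w Φ) x n :=
    str_congr (fun k hk => appr_eq w Φ n k hk) (fun k hk => by simp [extB, hk])
  have hy' : str (appr w Φ n) (extB (fun k : Fin n => y k)) n = str (blocks w Φ) y n :=
    str_congr (fun k hk => appr_eq w Φ n k hk) (fun k hk => by simp [extB, hk])
  have hmem : ((Φ e, str (blocks w Φ) x n, str (blocks w Φ) y n, x n) : Req) ∈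
      reqs Φ n (appr w Φ n) := by
    unfold reqs
    rw [List.mem_map]
    refine ⟨(⟨e, by omega⟩, fun k : Fin n => x k, fun k : Fin n => y k, x n), by simp, ?_⟩
    simp only [hx', hy']
  have h := (nextBlock_spec w Φ n (appr w Φ n)).2.2 _ hmem
  rw [str, str, hy]
  exact h

end UnifRep
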