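import Pool.Agent.Lib_MP_f59448_lc.Cantor

open Topology

namespace UnifRep

theorem str_prefix (b : ℕ → Bool → List Bool) (x : ℕ → Bool) {m n : ℕ} (h : m ≤ n) :
    str b x m <+: str b x n := by
  induction n, h using Nat.le_induction with
  | base => exact List.prefix_refl _
  | succ n _ ih => exact ih.trans (List.prefix_append _ _)

theorem str_length_eq (b : ℕ → Bool → List Bool)
    (h1 : ∀ n, (b n true).length = (b n false).length) (x y : ℕ → Bool) (n : ℕ) :
    (str b x n).length = (str b y n).length := by
  induction n with
  | zero => rfl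
  | succ n ih =>
    have : (b n (x n)).length = (b n (y n)).length := by
      cases x n <;> cases y n <;> simp [h1]
    simp [str, ih, this]

theorem block_length_pos (b : ℕ → Bool → List Bool)
    (h1 : ∀ n, (b n true).length = (b n false).length)
    (h2 : ∀ n, b n true ≠ b n false) (n : ℕ) (i : Bool) : 1 ≤ (b n i).length := by
  by_contra hcon
  have h0 : (b n i).length = 0 := by omega
  have ht : (b n true).length = 0 := by
    cases i
    · rw [h1, h0]
    · exact h0
  have hf : (b n false).length = 0 := by rw [← h1, ht]
  exact h2 n ((List.length_eq_zero_iff.1 ht).trans (List.length_eq_zero_iff.1 hf).symm)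

theorem le_str_length (b : ℕ → Bool → List Bool)
    (h1 : ∀ n, (b n true).length = (b n false).length)
    (h2 : ∀ n, b n true ≠ b n false) (x : ℕ → Bool) (n : ℕ) : n ≤ (str b x n).length := by
  induction n with
  | zero => exact Nat.zero_le _
  | succ n ih =>
    have := block_length_pos b h1 h2 n (x n)
    simp only [str, List.length_append]
    omega

theorem getD_of_prefix {l l' : List Bool} (h : l <+: l') {i : ℕ} (hi : i < l.length) :
    l.getD i false = l'.getD i false := by
  obtain ⟨r, rfl⟩ := h
  rw [List.getD_append _ _ _ _ hi]

theorem phi_mem_cyl (b : ℕ → Bool → List Bool) (h1 : ∀ n, (b n true).length = (b n false).length)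
    (h2 : ∀ n, b n true ≠ b n false) (x : ℕ → Bool) (n : ℕ) : phi b x ∈ Cyl (str b x n) := by
  intro i hi
  have h3 : i < (str b x (i + 1)).length := by
    have := le_str_length b h1 h2 x (i + 1)
    omega
  have e1 := getD_of_prefix (str_prefix b x (le_max_left n (i + 1))) hi
  have e2 := getD_of_prefix (str_prefix b x (le_max_right n (i + 1))) h3
  rw [e1, ← e2]
  rfl

theorem eq_of_mem_cyl {s t : List Bool} (hl : s.length = t.length) {x : ℕ → Bool}
    (hs : x ∈ Cyl s) (ht : x ∈ Cyl t) : s = t := by
  apply List.ext_getElem hl
  intro i hi hi'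
  have e1 := hs i hi
  have e2 := ht i hi'
  rw [List.getD_eq_getElem _ _ hi] at e1
  rw [List.getD_eq_getElem _ _ hi'] at e2
  rw [← e1, ← e2]

theorem phi_injective (b : ℕ → Bool → List Bool) (h1 : ∀ n, (b n true).length = (b n false).length)
    (h2 : ∀ n, b n true ≠ b n false) : Function.Injective (phi b) := by
  intro x y hxy
  have hs : ∀ n, str b x n = str b y n := by
    intro n
    refine eq_of_mem_cyl (str_length_eq b h1 x y n) (phi_mem_cyl b h1 h2 x n) ?_
    rw [hxy]
    exact phi_mem_cyl b h1 h2 y n
  funext n
  have h3 := hs (n + 1)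
  simp only [str, hs n] at h3
  have h4 := List.append_cancel_left h3
  have h5 := h2 n
  cases hx : x n <;> cases hy : y n <;> simp_all

theorem isLocallyConstant_str (b : ℕ → Bool → List Bool) (n : ℕ) :
    IsLocallyConstant (fun x : ℕ → Bool => str b x n) := by
  induction n with
  | zero => exact IsLocallyConstant.const _
  | succ n ih =>
    have h : IsLocallyConstant (fun x : ℕ → Bool => x n) :=
      (IsLocallyConstant.iff_continuous _).2 (continuous_apply n)
    exact ih.comp₂ h (fun s i => s ++ b n i)

theorem continuous_phi (b : ℕ → Bool → List Bool) : Continuous (phi b) := by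
  refine continuous_pi fun k => ?_
  exact ((isLocallyConstant_str b (k + 1)).comp (fun s => s.getD k false)).continuous

end UnifRep
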