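import Pool.Agent.Lib_MP_f59448_lc.Functional
import Pool.Agent.Lib_MP_f59448_lc.Phi

open Topology

namespace UnifRep

theorem str_flip_le (b : ℕ → Bool → List Bool) (q : ℕ) (x : ℕ → Bool) (n : ℕ) (hn : n ≤ q) :
    str b (flip q x) n = str b x n := by
  induction n with
  | zero => rfl
  | succ n ih =>
    have hne : n ≠ q := by omega
    have hx : flip q x n = x n := by simp [flip, Function.update_of_ne hne]
    simp only [str, ih (by omega), hx]

theorem str_flip_ge (b : ℕ → Bool → List Bool)
    (h1 : ∀ n, (b n true).length = (b n false).length) (q : ℕ) (x : ℕ → Bool) (k : ℕ)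
    (hk : (str b x (q + 1)).length ≤ k) (n : ℕ) (hn : q + 1 ≤ n) :
    (str b (flip q x) n).getD k false = (str b x n).getD k false := by
  induction n, hn using Nat.le_induction with
  | base =>
    have hk' : (str b (flip q x) (q + 1)).length ≤ k := by
      rw [str_length_eq b h1 (flip q x) x]; exact hk
    rw [List.getD_eq_default _ _ hk, List.getD_eq_default _ _ hk']
  | succ n hn ih =>
    have hne : n ≠ q := by omega
    have hx : flip q x n = x n := by simp [flip, Function.update_of_ne hne]
    have hlen : (str b (flip q x) n).length = (str b x n).length :=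
      str_length_eq b h1 _ _ n
    simp only [str, hx]
    rcases Nat.lt_or_ge k (str b x n).length with h | h
    · rw [List.getD_append _ _ _ _ h, List.getD_append _ _ _ _ (by rw [hlen]; exact h), ih]
    · rw [List.getD_append_right _ _ _ _ h, List.getD_append_right _ _ _ _ (by rw [hlen]; exact h),
        hlen]

theorem getD_map_range (N : ℕ) (g : ℕ → Option ℕ) (n : ℕ) :
    ((List.range N).map g).getD n none = if n < N then g n else none := by
  rw [List.getD_eq_getElem?_getD, List.getElem?_map]
  by_cases h : n < N
  · rw [List.getElem?_range h]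
    simp [h]
  · rw [List.getElem?_eq_none (by simpa using h)]
    simp [h]

theorem exists_getD_ne (l m : List Bool) (hlen : l.length = m.length) (hne : l ≠ m) :
    ∃ j < l.length, l.getD j false ≠ m.getD j false := by
  by_contra hcon
  push Not at hcon
  apply hne
  apply List.ext_getElem hlen
  intro i hi1 hi2
  have := hcon i hi1
  rwa [List.getD_eq_getElem _ _ hi1, List.getD_eq_getElem _ _ hi2] at this

theorem phi_flip (z : ℕ → ℕ) (b : ℕ → Bool → List Bool)
    (h1 : ∀ n, (b n true).length = (b n false).length)
    (h2 : ∀ n, b n true ≠ b n false) (q : ℕ) :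
    ∃ c, ∀ x, Computes c (emb z (phi b x)) (emb z (phi b (flip q x))) := by
  obtain ⟨j0, hj0, hj0ne⟩ := exists_getD_ne (b q true) (b q false) (h1 q) (h2 q)
  set L : ℕ := (str b (fun _ => true) q).length with hL
  set N : ℕ := L + (b q true).length with hN
  have hLx : ∀ x, (str b x q).length = L := fun x => str_length_eq b h1 x _ q
  have hNx : ∀ x, (str b x (q + 1)).length = N := by
    intro x
    simp only [str, List.length_append, hLx]
    cases x q <;> simp [hN, h1 q]
  set tab : Bool → List (Option ℕ) := fun i => (List.range (2 * N)).map
    (fun m => if m % 2 = 0 then none else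
      if m / 2 < L then none else some ((b q i).getD (m / 2 - L) false).toNat) with htab
  obtain ⟨c, hc⟩ := exists_code_table (tab false) (tab true) (2 * (L + j0) + 1)
    ((b q true).getD j0 false).toNat
  refine ⟨c, fun x m => ?_⟩
  have key := hc (emb z (phi b x)) m
  convert key using 1
  have hodd : ∀ (y : ℕ → Bool) (k : ℕ), emb z y (2 * k + 1) = (y k).toNat := by
    intro y k
    have e1 : (2 * k + 1) % 2 ≠ 0 := by omega
    have e2 : (2 * k + 1) / 2 = k := by omega
    simp only [emb, e1, if_false, e2]
  -- the block read from the oracle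
  have hblock : ∀ (y : ℕ → Bool) (j : ℕ), j < (b q true).length →
      phi b y (L + j) = (b q (y q)).getD j false := by
    intro y j hj
    have hlt : L + j < (str b y (q + 1)).length := by rw [hNx, hN]; omega
    rw [phi_mem_cyl b h1 h2 y (q + 1) (L + j) hlt]
    simp only [str]
    rw [List.getD_append_right _ _ _ _ (by rw [hLx]; omega), hLx, Nat.add_sub_cancel_left]
  have hdec : (emb z (phi b x) (2 * (L + j0) + 1) = ((b q true).getD j0 false).toNat) ↔
      x q = true := by
    rw [hodd, hblock x j0 hj0]
    constructor
    · intro h
      by_contra hcon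
      rw [Bool.not_eq_true] at hcon
      rw [hcon] at h
      apply hj0ne
      revert h
      cases (b q true).getD j0 false <;> cases (b q false).getD j0 false <;> simp
    · intro h
      rw [h]
  have htabx : (if emb z (phi b x) (2 * (L + j0) + 1) = ((b q true).getD j0 false).toNat
      then tab false else tab true) = tab (!x q) := by
    by_cases hx : x q = true
    · rw [if_pos (hdec.2 hx), hx]; rfl
    · rw [if_neg (fun h => hx (hdec.1 h))]
      rw [Bool.not_eq_true] at hx
      rw [hx]; rfl
  rw [htabx]
  simp only [htab, getD_map_range]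
  -- the values of `phi b (flip q x)`
  have hval : ∀ n, phi b (flip q x) n = if n < N then (if n < L then phi b x n else
      (b q (!x q)).getD (n - L) false) else phi b x n := by
    intro n
    by_cases hn : n < N
    · rw [if_pos hn]
      by_cases hnL : n < L
      · rw [if_pos hnL, phi_mem_cyl b h1 h2 (flip q x) q n (by rw [hLx]; exact hnL),
          phi_mem_cyl b h1 h2 x q n (by rw [hLx]; exact hnL), str_flip_le b q x q le_rfl]
      · rw [if_neg hnL]
        have hnj : n = L + (n - L) := by omega
        have hlt : n - L < (b q true).length := by omega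
        have hfl : flip q x q = !x q := by simp [flip]
        conv_lhs => rw [hnj]
        rw [hblock (flip q x) (n - L) hlt, hfl]
    · rw [if_neg hn]
      unfold phi
      rcases Nat.lt_or_ge q (n + 1) with h | h
      · rw [str_flip_ge b h1 q x n (by rw [hNx]; omega) (n + 1) h]
      · rw [str_flip_le b q x (n + 1) h]
  rcases Nat.even_or_odd' m with ⟨n, rfl | rfl⟩
  · have e1 : 2 * n % 2 = 0 := by omega
    by_cases hn : 2 * n < 2 * N
    · rw [if_pos hn]
      simp only [e1, if_true, Option.getD_none, emb]
    · rw [if_neg hn]
      simp only [e1, if_true, Option.getD_none, emb]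
  · rw [hodd, hodd, hval n]
    have e1 : (2 * n + 1) % 2 ≠ 0 := by omega
    have e2 : (2 * n + 1) / 2 = n := by omega
    by_cases hn : n < N
    · rw [if_pos hn, if_pos (show 2 * n + 1 < 2 * N by omega), if_neg e1, e2]
      by_cases hnL : n < L
      · rw [if_pos hnL, if_pos hnL]; rfl
      · rw [if_neg hnL, if_neg hnL]; rfl
    · rw [if_neg hn, if_neg (show ¬ 2 * n + 1 < 2 * N by omega)]; rfl

end UnifRep
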