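import Pool.Agent.Lib_MP_f59448_lc.Cantor

/-!
MP_f59448_lc, piece REC: the programs compute exactly the functions recursive in the oracle.
-/

namespace UnifRep

instance : Nonempty Code := ⟨Code.zero⟩

/-- Numbers of programs. -/
def Code.num : Code → ℕ
  | Code.zero => Nat.pair 0 0
  | Code.succ => Nat.pair 1 0
  | Code.left => Nat.pair 2 0
  | Code.right => Nat.pair 3 0
  | Code.oracle => Nat.pair 4 0
  | Code.pair a b => Nat.pair 5 (Nat.pair a.num b.num)
  | Code.comp a b => Nat.pair 6 (Nat.pair a.num b.num)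
  | Code.prec a b => Nat.pair 7 (Nat.pair a.num b.num)
  | Code.rfind a => Nat.pair 8 a.num

theorem Code.num_injective : Function.Injective Code.num := by
  intro a
  induction a with
  | zero => intro b h; cases b <;> simp_all [Code.num, Nat.pair_eq_pair]
  | succ => intro b h; cases b <;> simp_all [Code.num, Nat.pair_eq_pair]
  | left => intro b h; cases b <;> simp_all [Code.num, Nat.pair_eq_pair]
  | right => intro b h; cases b <;> simp_all [Code.num, Nat.pair_eq_pair]
  | oracle => intro b h; cases b <;> simp_all [Code.num, Nat.pair_eq_pair]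
  | pair a1 a2 h1 h2 =>
    intro b h
    cases b <;> simp only [Code.num, Nat.pair_eq_pair] at h <;> try omega
    rw [h1 h.2.1, h2 h.2.2]
  | comp a1 a2 h1 h2 =>
    intro b h
    cases b <;> simp only [Code.num, Nat.pair_eq_pair] at h <;> try omega
    rw [h1 h.2.1, h2 h.2.2]
  | prec a1 a2 h1 h2 =>
    intro b h
    cases b <;> simp only [Code.num, Nat.pair_eq_pair] at h <;> try omega
    rw [h1 h.2.1, h2 h.2.2]
  | rfind a1 h1 =>
    intro b h
    cases b <;> simp only [Code.num, Nat.pair_eq_pair] at h <;> try omega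
    rw [h1 h.2]

instance : Countable Code := Code.num_injective.countable

theorem eval_recursiveIn (x : ℕ → ℕ) (c : Code) :
    Nat.RecursiveIn {(x : ℕ →. ℕ)} (eval x c) := by
  induction c with
  | zero => exact Nat.RecursiveIn.zero
  | succ => exact Nat.RecursiveIn.succ
  | left => exact Nat.RecursiveIn.left
  | right => exact Nat.RecursiveIn.right
  | oracle => exact Nat.RecursiveIn.oracle _ rfl
  | pair a b ha hb => exact Nat.RecursiveIn.pair ha hb
  | comp a b ha hb => exact Nat.RecursiveIn.comp ha hb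
  | prec a b ha hb => exact Nat.RecursiveIn.prec ha hb
  | rfind a ha => exact Nat.RecursiveIn.rfind ha

theorem exists_code_of_recursiveIn (x : ℕ → ℕ) {f : ℕ →. ℕ}
    (hf : Nat.RecursiveIn {(x : ℕ →. ℕ)} f) : ∃ c, eval x c = f := by
  induction hf with
  | zero => exact ⟨Code.zero, rfl⟩
  | succ => exact ⟨Code.succ, rfl⟩
  | left => exact ⟨Code.left, rfl⟩
  | right => exact ⟨Code.right, rfl⟩
  | oracle g hg =>
    rw [Set.mem_singleton_iff] at hg
    subst hg
    exact ⟨Code.oracle, rfl⟩
  | pair _ _ iha ihb =>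
    obtain ⟨a, rfl⟩ := iha
    obtain ⟨b, rfl⟩ := ihb
    exact ⟨Code.pair a b, rfl⟩
  | comp _ _ iha ihb =>
    obtain ⟨a, rfl⟩ := iha
    obtain ⟨b, rfl⟩ := ihb
    exact ⟨Code.comp a b, rfl⟩
  | prec _ _ iha ihb =>
    obtain ⟨a, rfl⟩ := iha
    obtain ⟨b, rfl⟩ := ihb
    exact ⟨Code.prec a b, rfl⟩
  | rfind _ iha =>
    obtain ⟨a, rfl⟩ := iha
    exact ⟨Code.rfind a, rfl⟩

theorem computes_iff_eq (c : Code) (x y : ℕ → ℕ) : Computes c x y ↔ eval x c = (y : ℕ →. ℕ) := by
  constructor
  · intro h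
    funext n
    exact Part.eq_some_iff.2 (h n)
  · intro h n
    rw [h]
    exact Part.mem_some _

theorem computes_iff (x y : ℕ → ℕ) :
    (∃ c, Computes c x y) ↔ TuringReducible (y : ℕ →. ℕ) (x : ℕ →. ℕ) := by
  constructor
  · rintro ⟨c, hc⟩
    rw [computes_iff_eq] at hc
    have := eval_recursiveIn x c
    rw [hc] at this
    exact RecursiveIn.iff_nat.2 this
  · intro h
    obtain ⟨c, hc⟩ := exists_code_of_recursiveIn x (RecursiveIn.iff_nat.1 h)
    exact ⟨c, (computes_iff_eq c x y).2 hc⟩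

theorem TuringEq.rfl (x : ℕ → ℕ) : TuringEq x x :=
  ⟨(computes_iff x x).2 (TuringReducible.refl _), (computes_iff x x).2 (TuringReducible.refl _)⟩

theorem TuringEq.symm {x y : ℕ → ℕ} (h : TuringEq x y) : TuringEq y x := ⟨h.2, h.1⟩

theorem TuringEq.trans {x y z : ℕ → ℕ} (h : TuringEq x y) (h' : TuringEq y z) : TuringEq x z := by
  obtain ⟨h1, h2⟩ := h
  obtain ⟨h1', h2'⟩ := h'
  rw [computes_iff] at h1 h2 h1' h2'
  exact ⟨(computes_iff x z).2 (TuringReducible.trans h1' h1),
    (computes_iff z x).2 (TuringReducible.trans h2 h2')⟩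

theorem deg_eq_iff (x y : ℕ → ℕ) : deg x = deg y ↔ TuringEq x y := by
  constructor
  · intro h
    have h' := Quot.eqvGen_exact h
    induction h' with
    | rel a b hab => exact hab
    | refl a => exact TuringEq.rfl a
    | symm a b _ ih => exact (ih (Quot.eqvGen_sound ‹_›)).symm
    | trans a b c _ _ ih1 ih2 =>
      exact (ih1 (Quot.eqvGen_sound ‹_›)).trans (ih2 (Quot.eqvGen_sound ‹_›))
  · intro h
    exact Quot.sound h

end UnifRep
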