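import Pool.Agent.Lib_MP_f59448_lc.Category
import Pool.Agent.Lib_MP_f59448_lc.Recursive
import Pool.Agent.Lib_MP_f59448_lc.Fusion
import Pool.Agent.Lib_MP_f59448_lc.Phi
import Pool.Agent.Lib_MP_f59448_lc.PhiFlip
import Pool.Agent.Lib_MP_f59448_lc.BorelRep

open Topology

namespace UnifRep


theorem exists_phi (z : ℕ → ℕ) : ∃ φ : (ℕ → Bool) → (ℕ → ℕ), Continuous φ ∧
    Function.Injective φ ∧ (∀ x, ∃ c, Computes c (φ x) z) ∧
    (∀ q, ∃ c, ∀ x, Computes c (φ x) (φ (flip q x))) ∧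
    (∀ x y, TuringEq (φ x) (φ y) → ∃ N, ∀ n, N ≤ n → x n = y n) := by
  obtain ⟨Φ, hΦ⟩ := exists_surjective_nat Code
  obtain ⟨b, h1, h2, h3⟩ := fusion z Φ
  refine ⟨fun x => emb z (phi b x), ?_, ?_, fun x => emb_computes z _,
    fun q => phi_flip z b h1 h2 q, ?_⟩
  · refine continuous_pi fun n => ?_
    simp only [emb]
    split_ifs with hn
    · exact continuous_const
    · have : Continuous fun x => phi b x (n / 2) :=
        (continuous_apply (n / 2)).comp (continuous_phi b)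
      exact (continuous_of_discreteTopology (f := Bool.toNat)).comp this
  · intro x y h
    refine phi_injective b h1 h2 ?_
    funext n
    have := congrFun h (2 * n + 1)
    have e1 : (2 * n + 1) % 2 ≠ 0 := by omega
    have e2 : (2 * n + 1) / 2 = n := by omega
    simp only [emb, e1, if_false, e2] at this
    cases h3 : phi b x n <;> cases h4 : phi b y n <;> simp_all
  · rintro x y ⟨⟨c, hc⟩, -⟩
    obtain ⟨e, rfl⟩ := hΦ c
    by_contra hcon
    push Not at hcon
    obtain ⟨n, hn, hne⟩ := hcon e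
    exact h3 n x y hne e hn _ (phi_mem_cyl b h1 h2 x (n + 1)) _ (phi_mem_cyl b h1 h2 y (n + 1)) hc

/-- For every real `z` (think of the cone above `z`) there is a function `f` on the degrees with a
Borel representative which has no uniform representative, not even on the cone above `z`, with the
property of Baire. -/
theorem main (z : ℕ → ℕ) : ∃ (f : Deg → Deg) (φ : (ℕ → Bool) → (ℕ → ℕ)),
    (∃ F, Measurable F ∧ Represents F f) ∧ Continuous φ ∧ (∀ x, ∃ c, Computes c (φ x) z) ∧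
    ∀ (Φ : ℕ → Code), Function.Surjective Φ → ∀ (G : (ℕ → ℕ) → (ℕ → ℕ)) (t : ℕ → ℕ),
      (∀ x, (∃ c, Computes c x z) → deg (G x) = f (deg x)) →
      (∀ (x y : ℕ → ℕ) (e : ℕ), (∃ c, Computes c x z) → (∃ c, Computes c y z) → Via Φ e x y →
        Via Φ (t e) (G x) (G y)) →
      ∃ n m : ℕ, ¬ BaireMeasurableSet {x : ℕ → Bool | G (φ x) n = m} := by
  obtain ⟨φ, hcont, hinj, hz, hfl, hrig⟩ := exists_phi z
  obtain ⟨F, hF, hF1, hF2⟩ := exists_borel φ hcont hinj
  have hinv : ∀ z z', TuringEq z z' → TuringEq (F z) (F z') := by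
    intro z z' h
    by_cases hz : ∃ x, TuringEq z (φ x)
    · obtain ⟨x0, hx0⟩ := id hz
      have hz' : ∃ x, TuringEq z' (φ x) := ⟨x0, h.symm.trans hx0⟩
      obtain ⟨x, hx, hFx⟩ := hF1 z hz
      obtain ⟨y, hy, hFy⟩ := hF1 z' hz'
      rw [hFx, hFy]
      obtain ⟨N, hN⟩ := hrig x y ((hx.symm.trans h).trans hy)
      exact hmap_finite x y N hN
    · have hz' : ¬ ∃ x, TuringEq z' (φ x) := fun ⟨x, hx⟩ => hz ⟨x, h.trans hx⟩
      rw [hF2 z hz, hF2 z' hz']
      exact TuringEq.rfl _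
  let f : Deg → Deg := Quot.lift (fun z => deg (F z)) fun z z' h => (deg_eq_iff _ _).2 (hinv z z' h)
  refine ⟨f, φ, ⟨F, hF, fun x => rfl⟩, hcont, hz, ?_⟩
  intro Φ hΦ G t hG hU
  by_contra hcon
  push Not at hcon
  refine no_uniform (fun x => G (φ x)) hcon (fun x => ?_) (fun q => ?_)
  · have h1 : TuringEq (G (φ x)) (F (φ x)) := (deg_eq_iff _ _).1 (hG (φ x) (hz x))
    obtain ⟨y, hy, hFy⟩ := hF1 (φ x) ⟨x, TuringEq.rfl _⟩
    obtain ⟨N, hN⟩ := hrig x y hy
    rw [hFy] at h1
    exact h1.trans (hmap_finite x y N hN).symm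
  · obtain ⟨c, hc⟩ := hfl q
    obtain ⟨i, hi⟩ := hΦ c
    refine ⟨Φ (t (Nat.pair i i)).unpair.1, fun x => ?_⟩
    have hvia : Via Φ (Nat.pair i i) (φ x) (φ (flip q x)) := by
      have hff : flip q (flip q x) = x := by
        funext k
        by_cases hk : k = q
        · subst hk; simp [flip]
        · simp [flip, Function.update_of_ne hk]
      constructor
      · rw [Nat.unpair_pair, hi]; exact hc x
      · rw [Nat.unpair_pair, hi]
        have := hc (flip q x)
        rwa [hff] at this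
    exact (hU _ _ _ (hz x) (hz _) hvia).1

end UnifRep
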